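import Mathlib

set_option autoImplicit false

open Set Filter Topology Function

namespace Pool.Agent.H.MP_f8a8cb_gt

lemma strat {H Y K : Type} [TopologicalSpace H] [TopologicalSpace Y] [TopologicalSpace K]
    [CompactSpace K] [T2Space K] {j : Y → H} (hj : IsInducing j) {e : Y → K}
    (he : IsDenseEmbedding e) (hG : ∀ s : Set K, IsGδ s → s.Nonempty → ∃ x, e x ∈ s) :
    ∃ σ : Set H → Set H, (∀ A, IsOpen A → (j ⁻¹' A).Nonempty →
      IsOpen (σ A) ∧ (j ⁻¹' σ A).Nonempty ∧ σ A ⊆ A) ∧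
      ∀ A : ℕ → Set H, (∀ n, IsOpen (A n) ∧ (j ⁻¹' A n).Nonempty) → (∀ n, A (n + 1) ⊆ σ (A n)) →
        ∃ x, ∀ n, j x ∈ A n := by
  have : ∀ A : Set H, IsOpen A → (j ⁻¹' A).Nonempty → ∃ (B O : Set K) (C : Set H),
      IsOpen B ∧ e ⁻¹' B = j ⁻¹' A ∧ O.Nonempty ∧ closure O ⊆ B ∧ IsOpen C ∧
        (j ⁻¹' C).Nonempty ∧ C ⊆ A ∧ j ⁻¹' C ⊆ e ⁻¹' O := by
    rintro A hA ⟨x, hx⟩
    obtain ⟨B, hB, hB'⟩ := he.isInducing.isOpen_iff.1 (hA.preimage hj.continuous)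
    obtain ⟨O, hO, h1, h2⟩ := (isCompact_singleton (x := e x)).exists_isOpen_closure_subset
      (hB.mem_nhdsSet.2 (singleton_subset_iff.2 (hB'.ge hx)))
    obtain ⟨C, hC, hC'⟩ := hj.isOpen_iff.1 (hO.preimage he.continuous)
    exact ⟨B, O, C ∩ A, hB, hB', ⟨_, h1 rfl⟩, h2, hC.inter hA, ⟨x, hC'.ge (h1 rfl), hx⟩,
      inter_subset_right, fun y hy => hC'.le hy.1⟩
  choose! B O σ h1 h2 h3 h4 h5 h6 h7 h8 using this
  refine ⟨σ, fun A a b => ⟨h5 A a b, h6 A a b, h7 A a b⟩, fun A hA hs => ?_⟩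
  have h9 : ∀ n, B (A (n + 1)) ⊆ closure (O (A n)) := fun n =>
    (he.dense.open_subset_closure_inter (h1 _ (hA _).1 (hA _).2)).trans (closure_mono (by
      rintro _ ⟨hx, x, rfl⟩
      exact h8 _ (hA n).1 (hA n).2 (hs n ((h2 _ (hA _).1 (hA _).2).le hx))))
  obtain ⟨z, hz⟩ := IsCompact.nonempty_iInter_of_sequence_nonempty_isCompact_isClosed
    (fun n => closure (O (A n))) (fun n => (h4 _ (hA _).1 (hA _).2).trans (h9 n))
    (fun n => (h3 _ (hA n).1 (hA n).2).closure) isClosed_closure.isCompact fun _ => isClosed_closure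
  obtain ⟨x, hx⟩ := hG (⋂ n, B (A n)) (IsGδ.iInter fun n => (h1 _ (hA n).1 (hA n).2).isGδ)
    ⟨z, mem_iInter.2 fun n => h4 _ (hA n).1 (hA n).2 (mem_iInter.1 hz n)⟩
  exact ⟨x, fun n => (h2 _ (hA n).1 (hA n).2).le (mem_iInter.1 hx n)⟩

variable {H : Type} [Group H] [TopologicalSpace H] [IsTopologicalGroup H]

lemma dens (G : Subgroup H) {Y : Type} {j : Y → H} (hj : ∀ y, j y ∈ G) {U : Set H} (hU : IsOpen U)
    (hU1 : 1 ∈ U) (hU' : ∀ g ∈ U, g ∈ G → g ∈ range j) (σ : Set H → Set H)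
    (h1 : ∀ A, IsOpen A → (j ⁻¹' A).Nonempty → IsOpen (σ A) ∧ (j ⁻¹' σ A).Nonempty ∧ σ A ⊆ A)
    (h2 : ∀ A : ℕ → Set H, (∀ n, IsOpen (A n) ∧ (j ⁻¹' A n).Nonempty) →
      (∀ n, A (n + 1) ⊆ σ (A n)) → ∃ x, ∀ n, j x ∈ A n)
    {z : H} (hz : z ∈ U) (hz' : z ∈ G.topologicalClosure) (W : ℕ → Set H) (hW : ∀ n, W n ∈ 𝓝 z) :
    ∃ g ∈ G, ∀ n, g ∈ W n := by
  have ne : ∀ A : Set H, IsOpen A → A ⊆ U → ∀ x ∈ A, x ∈ G.topologicalClosure →
      (j ⁻¹' A).Nonempty := fun A hA hAU x hx hx' => by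
    obtain ⟨g, h3, h4⟩ := mem_closure_iff.1 hx' A hA hx
    obtain ⟨y, rfl⟩ := hU' g (hAU h3) h4
    exact ⟨y, h3⟩
  have cz : Continuous fun x : H => x * z := by fun_prop
  have cz' : Continuous fun x : H => x * z⁻¹ := by fun_prop
  let P : Set H → Prop := fun D => IsOpen D ∧ (j ⁻¹' D).Nonempty ∧ D ⊆ U ∧ ∀ x ∈ D, x * z⁻¹ ∈ U
  have hA : ∀ D, P D → IsOpen ((· * z) ⁻¹' σ D) ∧ (j ⁻¹' ((· * z) ⁻¹' σ D)).Nonempty := by
    rintro D ⟨a, b, c, d⟩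
    obtain ⟨h3, ⟨y, h4⟩, h5⟩ := h1 D a b
    exact ⟨h3.preimage cz, ne _ (h3.preimage cz) (fun x hx => by simpa using d _ (h5 hx))
      (j y * z⁻¹) (by simpa using h4) (mul_mem (G.le_topologicalClosure (hj y)) (inv_mem hz'))⟩
  have step : ∀ n (D : {D // P D}), ∃ D' : {D // P D}, D'.1 ⊆ σ D ∧
      (∀ x ∈ D'.1, x * z⁻¹ ∈ σ ((· * z) ⁻¹' σ D)) ∧
      ∀ x ∈ D'.1, ∀ y ∈ D'.1, (x * z⁻¹)⁻¹ * y ∈ W n := by
    rintro n ⟨D, hD⟩
    obtain ⟨h3, ⟨y, h4⟩, h5⟩ := h1 _ (hA D hD).1 (hA D hD).2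
    have hc : ContinuousAt (fun p : H × H => (p.1 * z⁻¹)⁻¹ * p.2) (j y * z, j y * z) := by fun_prop
    obtain ⟨N, hN, hN'⟩ := mem_nhds_prod_iff'.1 (hc.preimage_mem_nhds (by simpa using hW n))
    obtain ⟨h6, h7, h8, h9, h10⟩ := hN'
    have e1 : (· * z⁻¹) ⁻¹' σ ((· * z) ⁻¹' σ D) ∩ (N ∩ hN) ⊆ σ D := fun x hx => by
      simpa using h5 hx.1
    have e2 := e1.trans (h1 D hD.1 hD.2.1).2.2
    have e3 := (h3.preimage cz').inter (h6.inter h8)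
    exact ⟨⟨_, e3, ne _ e3 (e2.trans hD.2.2.1) (j y * z) ⟨by simpa using h4, h7, h9⟩
      (mul_mem (G.le_topologicalClosure (hj y)) hz'), e2.trans hD.2.2.1,
      fun x hx => hD.2.2.2 x (e2 hx)⟩, e1, fun x hx => hx.1,
      fun x hx y hy => h10 (mk_mem_prod hx.2.1 hy.2.2)⟩
  choose F f1 f2 f3 using step
  have e0 := hU.inter (hU.preimage cz')
  let D : ℕ → {D // P D} := fun n => Nat.rec ⟨_, e0, ne _ e0 inter_subset_left z
    ⟨hz, by simpa using hU1⟩ hz', inter_subset_left, fun x hx => hx.2⟩ F n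
  have hs : ∀ n, σ (D n).1 ⊆ (D n).1 := fun n => (h1 _ (D n).2.1 (D n).2.2.1).2.2
  obtain ⟨y, hy⟩ := h2 (fun n => (D n).1) (fun n => ⟨(D n).2.1, (D n).2.2.1⟩) fun n => f1 n _
  obtain ⟨x, hx⟩ := h2 (fun n => (· * z) ⁻¹' σ (D n).1) (fun n => hA _ (D n).2) fun n x hx => by
    simpa using f2 n _ _ (hs (n + 1) hx)
  exact ⟨(j x)⁻¹ * j y, mul_mem (inv_mem (hj x)) (hj y), fun n => by
    simpa using f3 n _ _ (hs (n + 1) (hx (n + 1))) _ (hy (n + 1))⟩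

theorem main [T2Space H] [LocallyCompactSpace H] (G : Subgroup H) (U : Set G) (hU : IsOpen U)
    (h1 : 1 ∈ U) {K : Type} [TopologicalSpace K] [CompactSpace K] [T2Space K]
    {e : closure U → K} (he : IsDenseEmbedding e)
    (hG : ∀ s : Set K, IsGδ s → s.Nonempty → ∃ x, e x ∈ s) :
    ∃ V : Set G, IsOpen V ∧ 1 ∈ V ∧
      ∀ f : closure V → ℝ, Continuous f → ∃ C : ℝ, ∀ x, |f x| ≤ C := by
  obtain ⟨U', hU', rfl⟩ := isOpen_induced_iff.1 hU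
  obtain ⟨σ, s1, s2⟩ := strat (IsInducing.subtypeVal.comp IsInducing.subtypeVal) he hG
  have hd := fun z hz hz' => dens G (fun y => y.1.2) hU' h1
    (fun g h h' => ⟨⟨⟨g, h'⟩, subset_closure h⟩, rfl⟩) σ s1 s2 (z := z) hz hz'
  obtain ⟨C, hC, hC1, hCU⟩ := exists_compact_subset hU' h1
  refine ⟨Subtype.val ⁻¹' interior C, isOpen_interior.preimage continuous_subtype_val, hC1,
    fun f hf => ?_⟩
  have hi : IsInducing fun x : closure (Subtype.val ⁻¹' interior C : Set G) => x.1.1 :=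
    IsInducing.subtypeVal.comp IsInducing.subtypeVal
  have ne : ∀ T : Set H, IsOpen T → ∀ x ∈ T, x ∈ interior C → x ∈ G.topologicalClosure →
      ∃ y : closure (Subtype.val ⁻¹' interior C : Set G), y.1.1 ∈ T ∧ y.1.1 ∈ interior C := by
    intro T hT x h2 h3 h4
    obtain ⟨g, h5, h6⟩ := mem_closure_iff.1 h4 _ (hT.inter isOpen_interior) ⟨h2, h3⟩
    exact ⟨⟨⟨g, h6⟩, subset_closure h5.2⟩, h5⟩
  by_contra h
  push Not at h
  choose x hx using fun n : ℕ => h n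
  choose O hO hO' using fun n : ℕ => hi.isOpen_iff.1 (isOpen_lt (continuous_const (y := (n : ℝ)))
    (continuous_abs.comp hf))
  choose p hp hp' using fun n => mem_closure_iff.1 (x n).2 _
    ((hO n).preimage continuous_subtype_val) ((hO' n).ge (hx n))
  obtain ⟨q, hq, hq'⟩ := hC.exists_mapClusterPt (f := atTop) (u := fun n => (p n).1)
    (tendsto_principal.2 (Eventually.of_forall fun n => interior_subset (hp' n)))
  obtain ⟨u, hu, hu'⟩ := mapClusterPt_iff_ultrafilter.1 hq'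
  have hqG : q ∈ G.topologicalClosure :=
    mem_closure_of_tendsto hu' (Eventually.of_forall fun n => (p n).2)
  obtain ⟨g, hg, hg'⟩ := hd q (hCU hq) hqG
    (fun n => (fun w => (p n).1 * (q⁻¹ * w)) ⁻¹' (O n ∩ interior C)) fun n =>
      (((hO n).inter isOpen_interior).preimage (by fun_prop)).mem_nhds
        (by simpa using ⟨hp n, hp' n⟩)
  have ht : Tendsto (fun n => (p n).1 * (q⁻¹ * g)) u (𝓝 g) := by
    simpa using hu'.mul_const (q⁻¹ * g)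
  have hm : ∀ n, (p n).1 * (q⁻¹ * g) ∈ G.topologicalClosure := fun n =>
    mul_mem (G.le_topologicalClosure (p n).2) (mul_mem (inv_mem hqG) (G.le_topologicalClosure hg))
  have hgV : (⟨g, hg⟩ : G) ∈ closure (Subtype.val ⁻¹' interior C : Set G) :=
    mem_closure_iff.2 fun T hT hT' => by
      obtain ⟨T, h2, rfl⟩ := isOpen_induced_iff.1 hT
      obtain ⟨n, hn⟩ := (ht.eventually (h2.mem_nhds hT')).exists
      obtain ⟨y, hy⟩ := ne T h2 _ hn (hg' n).2 (hm n)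
      exact ⟨y.1, hy⟩
  obtain ⟨T, hT, hT'⟩ := hi.isOpen_iff.1 (isOpen_lt (continuous_abs.comp hf)
    (continuous_const (y := |f ⟨_, hgV⟩| + 1)))
  have hgT : g ∈ T := (Set.ext_iff.1 hT' ⟨_, hgV⟩).2 (lt_add_one |f ⟨_, hgV⟩|)
  obtain ⟨n, h2, h3⟩ := ((ht.eventually (hT.mem_nhds hgT)).and
    (hu (tendsto_natCast_atTop_atTop.eventually_ge_atTop (|f ⟨_, hgV⟩| + 1)))).exists
  obtain ⟨y, hy, -⟩ := ne _ (hT.inter (hO n)) _ ⟨h2, (hg' n).1⟩ (hg' n).2 (hm n)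
  exact absurd (lt_trans ((hO' n).le hy.2) (hT'.le hy.1)) (not_lt.2 h3)

end Pool.Agent.H.MP_f8a8cb_gt
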